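import Pool.Agent.Q304.BS1
import Pool.Agent.Q304.GL1
import Pool.Agent.Q304.GL3

/-!
For every `d ≥ 2` there is a locally checkable labelling problem for the (undirected, unlabelled)
shift graph of `ℤ^d` with a Baire measurable solution but without Borel solution.
-/

set_option autoImplicit false

namespace Pool.Agent.Results.MP_eb515b_lc.BaireNotBorel

open MeasureTheory Set
open Pool.Agent.W927.MT (RG RGType ball ballRG)

/-- The shift action: `(g · x)(h) = x (h + g)`. -/
def shift {d : ℕ} (g : Fin d → ℤ) (x : (Fin d → ℤ) → Bool) : (Fin d → ℤ) → Bool :=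
  fun h => x (h + g)

/-- The free part `X` of `2^(ℤ^d)`. -/
def F (d : ℕ) : Set ((Fin d → ℤ) → Bool) := {x | ∀ g : Fin d → ℤ, g ≠ 0 → shift g x ≠ x}

/-- The shift graph: `x` and `y` are adjacent iff `y = ± e_i · x` for some `i`. -/
def shiftGraph (d : ℕ) : SimpleGraph (F d) where
  Adj x y := ∃ (i : Fin d) (ε : ℤ), (ε = 1 ∨ ε = -1) ∧ y.1 = shift (Pi.single i ε) x.1
  symm := ⟨by
    rintro x y ⟨i, ε, hε, h⟩
    refine ⟨i, -ε, by omega, ?_⟩
    rw [h]
    funext k
    simp only [shift, Pi.single_neg, neg_add_cancel_right]⟩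
  loopless := ⟨by
    rintro x ⟨i, ε, hε, h⟩
    refine x.2 (Pi.single i ε) ?_ h.symm
    intro h0
    have := congrFun h0 i
    simp at this
    omega⟩

/-- A locally checkable labelling problem: labels `Fin k`, a radius `r` and a set of isomorphism
types of finite rooted labelled graphs of radius at most `r`. -/
abbrev LCL := Pool.Agent.Q304.GL.LCL

/-- The labelled ball of radius `r` around `x` is allowed. -/
def Ok {d : ℕ} (L : LCL) (f : F d → Fin L.k) (x : F d) : Prop :=
  Quotient.mk (RG.setoid L.k) (ballRG (shiftGraph d) L.r f x) ∈ L.P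

/-- `C` is an invariant Borel set. -/
def InvBorel {d : ℕ} (C : Set (F d)) : Prop :=
  MeasurableSet C ∧ ∀ (g : Fin d → ℤ) (x y : F d), x ∈ C → y.1 = shift g x.1 → y ∈ C

/-- There is a Borel solution on all of `X`. -/
def BorelSol (d : ℕ) (L : LCL) : Prop :=
  ∃ f : F d → Fin L.k, Measurable f ∧ ∀ x, Ok L f x

/-- There is a Borel solution on an invariant comeagre Borel set. -/
def BaireSol (d : ℕ) (L : LCL) : Prop :=
  ∃ C : Set (F d), InvBorel C ∧ C ∈ residual (F d) ∧
    ∃ f : F d → Fin L.k, Measurable f ∧ ∀ x ∈ C, Ok L f x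

/-- For every Borel probability measure there is a Borel solution on an invariant conull Borel
set. -/
def MeasSol (d : ℕ) (L : LCL) : Prop :=
  ∀ μ : Measure (F d), IsProbabilityMeasure μ → ∃ C : Set (F d), InvBorel C ∧ μ Cᶜ = 0 ∧
    ∃ f : F d → Fin L.k, Measurable f ∧ ∀ x ∈ C, Ok L f x

/-! ### proof -/

open Pool.Agent.Q304.GL hiding LCL
open Pool.Agent.W927.BM (Lab Rule Rule_congr)

variable {d : ℕ}

/-- the action -/
abbrev act (g : Fin d → ℤ) (x : F d) : F d := Pool.Agent.Q304.BS.act g x

theorem graph_iff (x y : F d) : (shiftGraph d).Adj x y ↔ ∃ g : Gen d, y = act (vec g) x := by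
  constructor
  · rintro ⟨i, ε, hε, h⟩
    rcases hε with rfl | rfl
    · exact ⟨(i, true), Subtype.ext h⟩
    · exact ⟨(i, false), Subtype.ext h⟩
  · rintro ⟨⟨i, b⟩, h⟩
    refine ⟨i, if b then 1 else -1, ?_, ?_⟩
    · cases b <;> simp
    · rw [h]
      rfl

open Classical in
/-- the direction table -/
noncomputable def tab {m : ℕ} (g₀ : Gen d) (τ : Gen d → Fin m) (γ : Fin m) : Gen d :=
  if h : ∃ e, τ e = γ then h.choose else g₀

theorem tab_eq {m : ℕ} (g₀ : Gen d) {τ : Gen d → Fin m} (hτ : Function.Injective τ) (e : Gen d) :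
    tab g₀ τ (τ e) = e := by
  unfold tab
  have h : ∃ e', τ e' = τ e := ⟨e, rfl⟩
  rw [dif_pos h]
  exact hτ h.choose_spec

theorem baire_part (hd : 2 ≤ d) :
    ∃ (m k : ℕ) (eL : Fin k ≃ Fin m × (Fin m → Gen d) × Lab), BaireSol d (prob hd eL) := by
  classical
  let S : Finset (Fin d → ℤ) :=
    ((Finset.univ : Finset (Gen d × Gen d)).filter fun p => p.1 ≠ p.2).image
      fun p => vec p.2 - vec p.1
  have hS : 0 ∉ S := by
    intro h
    obtain ⟨p, hp, h⟩ := Finset.mem_image.1 h
    have h1 : p.1 ≠ p.2 := (Finset.mem_filter.1 hp).2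
    exact h1 (vec_inj (sub_eq_zero.1 h)).symm
  have hpol : PolishSpace (F d) := (inferInstance : PolishSpace (Pool.Agent.Q304.BS.F d))
  have hcont : ∀ g : Fin d → ℤ, Continuous (act g) := fun g =>
    Pool.Agent.Q304.BS.continuous_act g
  have h0 : ∀ x : F d, act 0 x = x := fun x => Pool.Agent.Q304.BS.act_zero x
  have hadd : ∀ (g h : Fin d → ℤ) (x : F d), act (g + h) x = act g (act h x) := fun g h x =>
    Pool.Agent.Q304.BS.act_add g h x
  have hfree : ∀ (g : Fin d → ℤ) (x : F d), act g x = x → g = 0 := fun g x =>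
    Pool.Agent.Q304.BS.act_free g x
  obtain ⟨m, c, hcm, hc⟩ := exists_coloring (X := F d) (fun g x => act g x) h0 hadd hcont hfree S hS
  obtain ⟨k, ⟨eL⟩⟩ : ∃ k, Nonempty (Fin k ≃ Fin m × (Fin m → Gen d) × Lab) :=
    ⟨_, ⟨(Fintype.equivFin _).symm⟩⟩
  refine ⟨m, k, eL, ?_⟩
  -- the solution on the directed grid
  set T : ℤ → ℤ → F d → F d := fun t x => act (t • vec (g1 hd) + x • vec (g2 hd)) with hT
  have hfreeT : ∀ t x : ℤ, t • vec (g1 hd) + x • vec (g2 hd) = 0 → t = 0 ∧ x = 0 := by
    intro t x h
    have e1 := congrFun h ⟨0, by omega⟩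
    have e2 := congrFun h ⟨1, by omega⟩
    simp [g1, g2, vec_apply] at e1 e2
    exact ⟨e1, e2⟩
  obtain ⟨f₀, G₀, hf₀, hG₀, -, hG₀res, hG₀R⟩ := Pool.Agent.W927.BM.pos (F d) T
    (fun y => by simp only [hT, zero_smul, zero_add, h0])
    (fun s t x z y => by
      simp only [hT]
      rw [← hadd]
      congr 1
      rw [add_zsmul, add_zsmul]
      abel)
    (fun t x => (hcont _).measurable)
    (fun t x y h => hfreeT t x (hfree _ _ h))
  let C : Set (F d) := ⋂ g : Fin d → ℤ, act g ⁻¹' G₀
  have hCmem : ∀ x ∈ C, ∀ g, act g x ∈ G₀ := fun x hx g => mem_iInter.1 hx g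
  have hCact : ∀ x ∈ C, ∀ g, act g x ∈ C := by
    intro x hx g
    refine mem_iInter.2 fun h => ?_
    change act h (act g x) ∈ G₀
    rw [← hadd]
    exact hCmem x hx _
  have hres : C ∈ residual (F d) := by
    refine (countable_iInter_mem).2 fun g => ?_
    let e : F d ≃ₜ F d :=
      { toFun := act g
        invFun := act (-g)
        left_inv := fun x => by rw [← hadd, neg_add_cancel, h0]
        right_inv := fun x => by rw [← hadd, add_neg_cancel, h0]
        continuous_toFun := hcont g
        continuous_invFun := hcont (-g) }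
    exact (tendsto_residual_of_isOpenMap e.continuous e.isOpenMap) hG₀res
  let _ : MeasurableSpace Lab := ⊤
  have _ : DiscreteMeasurableSpace Lab := ⟨fun _ => trivial⟩
  have hf₀m : Measurable f₀ := measurable_to_countable' hf₀
  let τ : F d → Gen d → Fin m := fun x e => c (act (vec e) x)
  have hτm : Measurable τ := measurable_pi_lambda _ fun e => hcm.comp (hcont (vec e)).measurable
  have hτinj : ∀ x, Function.Injective (τ x) := by
    intro x e e' h
    by_contra hne
    have hmem : vec e' - vec e ∈ S :=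
      Finset.mem_image.2 ⟨(e, e'), Finset.mem_filter.2 ⟨Finset.mem_univ _, hne⟩, rfl⟩
    have h1 := hc _ hmem (act (vec e) x)
    apply h1
    rw [← hadd, sub_add_cancel]
    exact h.symm
  let f : F d → Fin k := fun x => eL.symm (c x, tab (g1 hd) (τ x), f₀ x)
  have hfm : Measurable f := by
    have h1 : Measurable (fun x => (c x, τ x, f₀ x)) := hcm.prodMk (hτm.prodMk hf₀m)
    exact (measurable_of_countable
      (fun q : Fin m × (Gen d → Fin m) × Lab => eL.symm (q.1, tab (g1 hd) q.2.1, q.2.2))).comp h1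
  have hco : ∀ x, co eL (f x) = c x := fun x => by simp [co, f]
  have hdir : ∀ x, dir eL (f x) = tab (g1 hd) (τ x) := fun x => by simp [dir, f]
  have hlb : ∀ x, lb eL (f x) = f₀ x := fun x => by simp [lb, f]
  refine ⟨C, ⟨MeasurableSet.iInter fun g => (hcont g).measurable hG₀, ?_⟩, hres, f, hfm, ?_⟩
  · intro g x y hx hy
    have : y = act g x := Subtype.ext hy
    rw [this]
    exact hCact x hx g
  · intro x hx
    refine ⟨fun v => f (act v x), ⟨?_, ?_⟩, ?_⟩
    · intro v _ g
      rw [hdir, hco, add_comm, hadd]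
      exact tab_eq (g1 hd) (hτinj (act v x)) g
    · have h1 := hG₀R x (by have := hCmem x hx 0; rwa [h0] at this) 0 0
      have h2 : (fun t z : ℤ => lb eL (f (act (t • vec (g1 hd) + z • vec (g2 hd)) x))) =
          fun t' x' => f₀ (T t' x' x) := by
        funext t z
        rw [hlb]
      rw [h2]
      exact h1
    · have h1 := ball_iso (G := grid d) (G' := shiftGraph d) (fun v => act v x)
        (fun v w h => act_inj (fun g x => act g x) h0 hadd hfree h)
        (fun v w => by
          rw [graph_iff]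
          constructor
          · rintro ⟨g, rfl⟩
            exact ⟨g, by rw [add_comm, hadd]⟩
          · rintro ⟨g, hg⟩
            rw [← hadd] at hg
            exact ⟨g, by rw [act_inj (fun g x => act g x) h0 hadd hfree hg, add_comm]⟩)
        (fun v y hy => by
          obtain ⟨g, rfl⟩ := (graph_iff _ _).1 hy
          exact ⟨vec g + v, hadd _ _ _⟩) 6 f 0
      rw [show act 0 x = x from h0 x] at h1
      exact (Quotient.sound h1).symm

/-- the Bernoulli measure -/
noncomputable def bern (d : ℕ) : Measure (F d) := Pool.Agent.Q304.BS.bernF d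

instance : IsProbabilityMeasure (bern d) :=
  (inferInstance : IsProbabilityMeasure (Pool.Agent.Q304.BS.bernF d))

theorem measure_part (hd : 2 ≤ d) {m k : ℕ} (eL : Fin k ≃ Fin m × (Fin m → Gen d) × Lab)
    (C : Set (F d)) (hC : InvBorel C) (hCμ : bern d Cᶜ = 0)
    (f : F d → Fin k) (hf : Measurable f) (hfC : ∀ x ∈ C, Ok (prob hd eL) f x) : False := by
  classical
  set μ : Measure (F d) := bern d with hμ
  have hpr : IsProbabilityMeasure μ := inferInstance
  have h0 : ∀ x : F d, act 0 x = x := fun x => Pool.Agent.Q304.BS.act_zero x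
  have hadd : ∀ (g h : Fin d → ℤ) (x : F d), act (g + h) x = act g (act h x) := fun g h x =>
    Pool.Agent.Q304.BS.act_add g h x
  have hfree : ∀ (g : Fin d → ℤ) (x : F d), act g x = x → g = 0 := fun g x =>
    Pool.Agent.Q304.BS.act_free g x
  have hmp : ∀ g : Fin d → ℤ, MeasurePreserving (act g) μ μ := fun g =>
    Pool.Agent.Q304.BS.mp_act g
  have herg : ∀ g : Gen d, Ergodic (act (vec g)) μ := fun g =>
    Pool.Agent.Q304.BS.erg_act (vec_ne_zero g)
  have hCact : ∀ v, ∀ x ∈ C, act v x ∈ C := fun v x hx => hC.2 v x (act v x) hx rfl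
  obtain ⟨s, h1, h2, h3, -, h5⟩ := analyse hd eL (fun g x => act g x) h0 hadd hfree (shiftGraph d)
    graph_iff f C hCact hfC
  have hCae : ∀ᵐ x ∂μ, x ∈ C := by
    rw [ae_iff]
    exact hCμ
  -- the directions are constant almost everywhere
  have hconst : ∀ e : Gen d, ∃ g : Gen d, ∀ᵐ x ∂μ, s x e = g := by
    intro e
    let A : Gen d → Set (F d) := fun g => {x | dir eL (f x) (co eL (f (act (vec g) x))) = e}
    have hAm : ∀ g, MeasurableSet (A g) := by
      intro g
      have hm : Measurable (fun x => (f x, f (act (vec g) x))) :=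
        hf.prodMk (hf.comp (hmp (vec g)).measurable)
      exact hm (MeasurableSet.of_discrete (s := {q : Fin k × Fin k | dir eL q.1 (co eL q.2) = e}))
    have hA : ∀ g, ∀ x ∈ C, x ∈ A g ↔ g = s x e := fun g x hx => h1 x hx g e
    have hinv : ∀ g, act (vec (g1 hd)) ⁻¹' (A g) =ᵐ[μ] A g := by
      intro g
      filter_upwards [hCae] with x hx
      refine propext ?_
      change act (vec (g1 hd)) x ∈ A g ↔ x ∈ A g
      rw [hA g x hx, hA g _ (hCact _ x hx), h3 x hx]
    by_contra hcon
    push Not at hcon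
    have hnull : ∀ g, μ (A g) = 0 := by
      intro g
      rcases (herg (g1 hd)).quasiErgodic.ae_empty_or_univ₀ (hAm g).nullMeasurableSet (hinv g)
        with h | h
      · exact ae_eq_empty.1 h
      · exfalso
        apply hcon g
        filter_upwards [hCae, h] with x hx hx'
        have h6 : x ∈ A g := by
          have : (A g) x = univ x := hx'
          rw [show (x ∈ A g) = (A g) x from rfl, this]
          trivial
        exact not_not.2 ((hA g x hx).1 h6).symm
    have hun : μ (⋃ g, A g) = 0 := measure_iUnion_null hnull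
    have hC0 : μ C = 0 := by
      refine measure_mono_null ?_ hun
      intro x hx
      exact mem_iUnion.2 ⟨s x e, (hA _ x hx).2 rfl⟩
    have h7 := prob_add_prob_compl (μ := μ) hC.1
    rw [hC0, hCμ] at h7
    simp at h7
  obtain ⟨σ1, hσ1⟩ := hconst (g1 hd)
  obtain ⟨σ2, hσ2⟩ := hconst (g2 hd)
  set T : ℤ → ℤ → F d → F d := fun t x => act (t • vec σ1 + x • vec σ2) with hT
  have Tadd : ∀ s t x z y, T (s + t) (x + z) y = T s x (T t z y) := by
    intro s t x z y
    simp only [hT]
    rw [← hadd]
    congr 1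
    rw [add_zsmul, add_zsmul]
    abel
  refine Pool.Agent.W927.BM.neg (F d) μ T (fun y => by simp only [hT, zero_smul, zero_add, h0])
    Tadd (fun t x => hmp _) ?_ ⟨fun x => lb eL (f x), ?_, ?_⟩
  · have : T 0 1 = act (vec σ2) := by
      simp only [hT, zero_smul, one_smul, zero_add]
    rw [this]
    exact herg σ2
  · intro l
    exact hf (MeasurableSet.of_discrete (s := {q : Fin k | lb eL q = l}))
  · filter_upwards [hCae, hσ1, hσ2] with y hy hy1 hy2
    intro t x
    have hz : T t x y ∈ C := hCact _ y hy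
    have h6 := h5 _ hz
    have h7 : s (T t x y) = s y := h3 y hy _
    rw [h7, hy1, hy2] at h6
    refine Rule_congr (t := 0) (x := 0) (t' := t) (x' := x) ?_ h6
    intro t' x' _ _
    change lb eL (f (T (0 + t') (0 + x') (T t x y))) = lb eL (f (T (t + t') (x + x') y))
    rw [← Tadd, zero_add, zero_add, add_comm t', add_comm x']

/-- For every `d ≥ 2` there is a locally checkable labelling problem with a Baire measurable
solution on the shift graph of `ℤ^d` but without Borel solution; it has not even measurable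
solutions for all Borel probability measures. -/
theorem result (d : ℕ) (hd : 2 ≤ d) :
    ∃ L : LCL, BaireSol d L ∧ ¬ BorelSol d L ∧ ¬ MeasSol d L := by
  obtain ⟨m, k, eL, hB⟩ := baire_part hd
  refine ⟨prob hd eL, hB, ?_, ?_⟩
  · rintro ⟨f, hf, hok⟩
    exact measure_part hd eL univ ⟨MeasurableSet.univ, fun _ _ _ _ _ => trivial⟩ (by simp) f hf
      fun x _ => hok x
  · intro h
    obtain ⟨C, hC, hCμ, f, hf, hok⟩ := h (bern d) inferInstance
    exact measure_part hd eL C hC hCμ f hf hok

end Pool.Agent.Results.MP_eb515b_lc.BaireNotBorel
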